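import Pool.Agent.R800.UA.Uni

/-!
# Powers of ample line bundles on torus quotients: base point freeness with an exponent in terms of the
order of the group, without a condition on `H^1(O)`
-/

set_option autoImplicit false

namespace Pool.Agent.R800.UB

open Pool.Agent.W594.SYZ2 Pool.Agent.W594.SYZ2.TQ Pool.Agent.TH735.AQ Pool.Agent.R893.TQ
open Pool.Agent.R800.UA

variable {V : Type*} [NormedAddCommGroup V] [NormedSpace ℂ V]
  {Γ : Subgroup (V ≃ᵃ[ℂ] V)} {L M : LineBundle Γ} {H : V → V → ℂ} {F : V → ℂ}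

/-- The pullback of a line bundle by the translation by a vector fixed by all linear parts. -/
def shift (L : LineBundle Γ) (x : V) (hx : ∀ γ ∈ Γ, γ.linear x = x) : LineBundle Γ where
  e := fun γ v => L.e γ (v + x)
  holo := fun γ => (L.holo γ).comp (differentiable_id.add_const x)
  ne_zero := fun γ v => L.ne_zero γ (v + x)
  mul := fun γ δ v => by
    rw [L.mul, act_add, hx _ δ.2]
  stab := fun γ v h => by
    apply L.stab
    rw [act_add, hx _ γ.2, h]

theorem shift_bpf {x : V} {hx : ∀ γ ∈ Γ, γ.linear x = x} (h : BaseFree L) :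
    BaseFree (shift L x hx) := by
  intro v
  obtain ⟨s, hs, hv⟩ := h (v + x)
  refine ⟨fun w => s (w + x), ⟨hs.holo.comp (differentiable_id.add_const x), fun γ w => ?_⟩, hv⟩
  change s ((γ : V ≃ᵃ[ℂ] V) w + x) = L.e γ (w + x) * s (w + x)
  rw [← hs.eq, act_add, hx _ γ.2]

theorem shift_pot [FiniteDimensional ℂ V] {x : V} {hx : ∀ γ ∈ Γ, γ.linear x = x} (hH : IsHermitian H) (hF : IsPot L H F) :
    IsPot (shift L x hx) H (fun v => F (v + x) + Real.pi * H v x) := by
  refine ⟨?_, fun γ v => ?_⟩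
  · refine (hF.1.comp (differentiable_id.add_const x)).add ?_
    have h1 : (fun v => H v x) = LinearMap.toContinuousLinearMap (hl hH x) := rfl
    have h2 : Differentiable ℂ (fun v => H v x) := by
      rw [h1]
      exact ContinuousLinearMap.differentiable _
    exact h2.const_mul _
  · change ‖L.e γ (v + x)‖ ^ 2 = _
    rw [hF.2, act_add, hx _ γ.2, h_diag_add hH, h_diag_add hH]
    congr 1
    have h2 : ∀ w : V, (F (w + x) + (Real.pi : ℂ) * H w x).re
        = (F (w + x)).re + Real.pi * (H w x).re := by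
      intro w
      rw [Complex.add_re, Complex.re_ofReal_mul]
    rw [h2, h2]
    ring

variable [FiniteDimensional ℂ V]

/-- The comparison of a shifted line bundle with the original one on the lattice. -/
theorem shift_tw {x : V} {hx : ∀ γ ∈ Γ, γ.linear x = x} (hH : IsHermitian H) (hF : IsPot L H F)
    (b : V) (hb : b ∈ latt Γ) (v : V) :
    tw (shift L x hx) (fun v => F (v + x) + Real.pi * H v x) (tr b hb) v
      = Complex.exp (2 * Real.pi * Complex.I * (H x b).im) * tw L F (tr b hb) v := by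
  have h1 : tw (shift L x hx) (fun v => F (v + x) + Real.pi * H v x) (tr b hb) v
      = tw L F (tr b hb) (v + x) * Complex.exp (-(Real.pi * H b x)) := by
    rw [tw, tw]
    change L.e (tr b hb) (v + x) * _ = L.e (tr b hb) (v + x) * _ * _
    rw [mul_assoc, ← Complex.exp_add, tr_apply, tr_apply, hH.add_left]
    congr 2
    rw [add_assoc b v x]
    ring
  rw [h1, tw_tr hH hF b hb (v + x), tw_tr hH hF b hb v, hH.add_left]
  have h2 : H b x = starRingEnd ℂ (H x b) := hH.symm x b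
  have h3 : H x b - starRingEnd ℂ (H x b) = 2 * (H x b).im * Complex.I := by
    apply Complex.ext <;> simp
    ring
  have h4 : (Real.pi : ℂ) * (H v b + H x b) + -(Real.pi * H b x)
      = 2 * Real.pi * Complex.I * (H x b).im + Real.pi * H v b := by
    rw [h2]
    linear_combination (Real.pi : ℂ) * h3
  rw [mul_assoc, ← Complex.exp_add, h4, Complex.exp_add]
  ring

/-- Each character of the lattice of absolute value one is of the form `exp (2 π i φ)`. -/
theorem exists_log (hΓ : IsTorusQuotient Γ) (ψ : V → ℂ) (h0 : ψ 0 = 1)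
    (hadd : ∀ b ∈ latt Γ, ∀ c ∈ latt Γ, ψ (b + c) = ψ b * ψ c)
    (hnorm : ∀ b ∈ latt Γ, ‖ψ b‖ = 1) :
    ∃ φ : V →ₗ[ℝ] ℝ, ∀ b ∈ latt Γ, Complex.exp (2 * Real.pi * Complex.I * φ b) = ψ b := by
  have : FiniteDimensional ℝ V := FiniteDimensional.complexToReal V
  let Λ : Submodule ℤ V := (latt Γ).toIntSubmodule
  have : DiscreteTopology Λ := hΓ.discrete
  have : IsZLattice ℝ Λ := ⟨hΓ.span_top⟩
  have : Module.Finite ℤ Λ := ZLattice.module_finite ℝ Λ
  have : Module.Free ℤ Λ := ZLattice.module_free ℝ Λ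
  let B := Module.Free.chooseBasis ℤ Λ
  let BR := B.ofZLatticeBasis ℝ Λ
  have hBR : ∀ i, BR i = (B i : V) := fun i => B.ofZLatticeBasis_apply ℝ Λ i
  let φ : V →ₗ[ℝ] ℝ := BR.constr ℝ (fun i => Complex.arg (ψ (B i)) / (2 * Real.pi))
  have hφ : ∀ i, φ (B i : V) = Complex.arg (ψ (B i)) / (2 * Real.pi) := by
    intro i
    have h1 := Module.Basis.constr_basis BR ℝ (fun i => (ψ ↑(B i)).arg / (2 * Real.pi)) i
    rw [hBR] at h1
    exact h1
  refine ⟨φ, ?_⟩
  have hbas : ∀ i, Complex.exp (2 * Real.pi * Complex.I * φ (B i : V)) = ψ (B i) := by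
    intro i
    have h1 : ‖ψ (B i)‖ = 1 := hnorm _ (B i).2
    have h2 := Complex.norm_mul_exp_arg_mul_I (ψ (B i))
    rw [h1, Complex.ofReal_one, one_mul] at h2
    rw [hφ]
    conv_rhs => rw [← h2]
    congr 1
    have hpi : (Real.pi : ℂ) ≠ 0 := Complex.ofReal_ne_zero.2 Real.pi_ne_zero
    push_cast
    field_simp
  have hneg : ∀ b ∈ latt Γ, ψ (-b) = (ψ b)⁻¹ := by
    intro b hb
    have h1 := hadd b hb (-b) ((latt Γ).neg_mem hb)
    rw [add_neg_cancel, h0] at h1
    have h2 : ψ b ≠ 0 := by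
      intro h
      have := hnorm b hb
      rw [h, norm_zero] at this
      exact zero_ne_one this
    exact eq_inv_of_mul_eq_one_right h1.symm
  have hP0 : Complex.exp (2 * Real.pi * Complex.I * φ ((0 : Λ) : V)) = ψ (0 : Λ) := by
    simp [h0]
  have hPadd : ∀ x y : Λ, Complex.exp (2 * Real.pi * Complex.I * φ (x : V)) = ψ x →
      Complex.exp (2 * Real.pi * Complex.I * φ (y : V)) = ψ y →
      Complex.exp (2 * Real.pi * Complex.I * φ ((x + y : Λ) : V)) = ψ (x + y : Λ) := by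
    intro x y hx hy
    rw [Submodule.coe_add, map_add, hadd _ x.2 _ y.2, ← hx, ← hy, ← Complex.exp_add]
    congr 1
    push_cast
    ring
  have hPneg : ∀ x : Λ, Complex.exp (2 * Real.pi * Complex.I * φ (x : V)) = ψ x →
      Complex.exp (2 * Real.pi * Complex.I * φ ((-x : Λ) : V)) = ψ (-x : Λ) := by
    intro x hx
    rw [Submodule.coe_neg, map_neg, hneg _ x.2, ← hx, ← Complex.exp_neg]
    congr 1
    push_cast
    ring
  have key : ∀ y : Λ, Complex.exp (2 * Real.pi * Complex.I * φ (y : V)) = ψ y := by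
    intro y
    have hy : y ∈ Submodule.span ℤ (Set.range B) := by rw [B.span_eq]; trivial
    induction hy using Submodule.span_induction with
    | mem x hx =>
      obtain ⟨i, rfl⟩ := hx
      exact hbas i
    | zero => exact hP0
    | add x y _ _ hx hy => exact hPadd x y hx hy
    | smul r x _ hx =>
      induction r using Int.induction_on with
      | zero => rw [zero_smul]; exact hP0
      | succ i ih =>
        rw [add_smul, one_smul]
        exact hPadd _ _ ih hx
      | pred i ih =>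
        rw [sub_smul, one_smul, sub_eq_add_neg]
        exact hPadd _ _ ih (hPneg _ hx)
  intro b hb
  exact key ⟨b, hb⟩

/-- A positive definite hermitian form represents every real linear form. -/
theorem exists_rep (hH : IsHermitian H) (hp : IsPositiveForm H) (φ : V →ₗ[ℝ] ℝ) :
    ∃ x : V, ∀ v, (H x v).im = φ v := by
  have : FiniteDimensional ℝ V := FiniteDimensional.complexToReal V
  let B : V →ₗ[ℝ] V →ₗ[ℝ] ℝ := LinearMap.mk₂ ℝ (fun x y => (H x y).im)
    (fun x x' y => by rw [hH.add_left, Complex.add_im])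
    (fun c x y => by
      rw [← Complex.coe_smul, hH.smul_left, Complex.im_ofReal_mul, smul_eq_mul])
    (fun x y y' => by rw [h_add_right hH, Complex.add_im])
    (fun c x y => by
      rw [← Complex.coe_smul, h_smul_right hH, Complex.conj_ofReal, Complex.im_ofReal_mul,
        smul_eq_mul])
  have hinj : Function.Injective B := by
    rw [injective_iff_map_eq_zero]
    intro x hx
    by_contra hne
    have h1 : (H x (Complex.I • x)).im = 0 := LinearMap.congr_fun hx (Complex.I • x)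
    rw [h_smul_right hH] at h1
    have h2 := hp x hne
    simp at h1
    rw [h1] at h2
    exact lt_irrefl _ h2
  have hsurj : Function.Surjective B :=
    (LinearMap.injective_iff_surjective_of_finrank_eq_finrank
      (Subspace.dual_finrank_eq (K := ℝ) (V := V)).symm).1 hinj
  obtain ⟨x, hx⟩ := hsurj φ
  exact ⟨x, fun v => LinearMap.congr_fun hx v⟩

theorem rep_unique (hH : IsHermitian H) (hp : IsPositiveForm H) {x y : V}
    (h : ∀ v, (H x v).im = (H y v).im) : x = y := by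
  by_contra hne
  have h1 : (H (x - y) (Complex.I • (x - y))).im = 0 := by
    rw [h_sub_left hH, Complex.sub_im, h, sub_self]
  rw [h_smul_right hH] at h1
  have h2 := hp _ (sub_ne_zero.2 hne)
  simp at h1
  rw [h1] at h2
  exact lt_irrefl _ h2

/-- The sum of the images of a vector under all linear parts. -/
noncomputable def avg (Γ : Subgroup (V ≃ᵃ[ℂ] V)) [Fintype (Lin Γ)] : V →ₗ[ℝ] V :=
  ∑ g : Lin Γ, ((g.1 : V →ₗ[ℂ] V).restrictScalars ℝ)

omit [FiniteDimensional ℂ V] in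
theorem avg_apply [Fintype (Lin Γ)] (v : V) : avg Γ v = ∑ g : Lin Γ, g.1 v := by
  simp only [avg, LinearMap.sum_apply]
  rfl

omit [FiniteDimensional ℂ V] in
theorem avg_inv [Fintype (Lin Γ)] (γ : V ≃ᵃ[ℂ] V) (hγ : γ ∈ Γ) (v : V) :
    avg Γ (γ.linear v) = avg Γ v := by
  let g : Lin Γ := ⟨γ.linear, γ, hγ, rfl⟩
  rw [avg_apply, avg_apply]
  exact Fintype.sum_equiv (Equiv.mulRight g) _ _ (fun h => rfl)

theorem aux_pow (a b c : ℂ) (m N : ℕ) (hN : 0 < N) (hb : b ≠ 0) (hc : c ≠ 0) :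
    (a ^ m * b⁻¹) ^ N * (b * c⁻¹) * (b ^ (N - 1) * c) = a ^ (m * N) := by
  obtain ⟨k, rfl⟩ : ∃ k, N = k + 1 := ⟨N - 1, by omega⟩
  rw [Nat.add_sub_cancel, mul_pow, inv_pow, pow_mul]
  field_simp
  ring

/-- Powers of ample line bundles are generated by global sections, with an exponent which depends only
on the order of the group. -/
theorem ample_eff (hΓ : IsTorusQuotient Γ) (hc : IsChernForm L H) (hp : IsPositiveForm H) :
    BaseFree (L.pow (4 * Nat.card (Lin Γ) ^ 5)) := by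
  classical
  have hn : IsNefForm H := by
    intro v
    by_cases hv : v = 0
    · rw [hv, h_zero_left hc.1]
      simp
    · exact (hp v hv).le
  obtain ⟨L', hL', hs⟩ := exists_bpf_eff hΓ hc hn
  have := finite_Lin hΓ
  have : Fintype (Lin Γ) := Fintype.ofFinite _
  have hNpos : 0 < Nat.card (Lin Γ) := Nat.card_pos
  set N := Nat.card (Lin Γ) with hN
  set m := 4 * N ^ 3 with hm
  have hmpos : 0 < m := by positivity
  -- the flat bundle `P`
  have hP := chern_mul (chern_pow hc m) (chern_dual hL')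
  have hz : (fun v w => (m : ℂ) * H v w + -((m : ℂ) * H v w)) = fun _ _ : V => (0 : ℂ) := by
    funext v w
    ring
  rw [hz] at hP
  obtain ⟨h0, FP, hFP, hFPe⟩ := hP
  set P := tensor (L.pow m) (dual L') with hPdef
  have hpotP : IsPot P (fun _ _ => 0) FP := ⟨hFP, hFPe⟩
  obtain ⟨hH', F', hF', hF'e⟩ := hL'
  have hpot' : IsPot L' (fun v w => (m : ℂ) * H v w) F' := ⟨hF', hF'e⟩
  have hp' : IsPositiveForm (fun v w => (m : ℂ) * H v w) := by
    intro v hv
    change 0 < ((m : ℂ) * H v v).re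
    have h1 : ((m : ℕ) : ℂ) = ((m : ℝ) : ℂ) := by push_cast; rfl
    rw [h1, Complex.re_ofReal_mul]
    exact mul_pos (by exact_mod_cast hmpos) (hp v hv)
  have hker : ∀ b : V, b ∈ ker h0 := fun b w => rfl
  obtain ⟨φ, hφ⟩ := exists_log hΓ (chi P FP) chi_zero
    (fun b hb c hc => chi_add h0 hpotP hb (hker b) hc (hker c))
    (fun b hb => chi_norm h0 hpotP hb (hker b))
  obtain ⟨x, hx⟩ := exists_rep hH' hp' (φ ∘ₗ avg Γ)
  have hxinv : ∀ γ ∈ Γ, γ.linear x = x := by
    intro γ hγ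
    apply rep_unique hH' hp'
    intro v
    have h1 := h_inv hH' hpot' ⟨γ, hγ⟩ x (γ.linear.symm v)
    change (m : ℂ) * H (γ.linear x) (γ.linear (γ.linear.symm v)) = (m : ℂ) * H x (γ.linear.symm v) at h1
    rw [LinearEquiv.apply_symm_apply] at h1
    rw [h1, hx, hx]
    change φ (avg Γ (γ.linear.symm v)) = φ (avg Γ v)
    rw [← avg_inv γ hγ (γ.linear.symm v), LinearEquiv.apply_symm_apply]
  have hchi : ∀ b ∈ latt Γ, Complex.exp (2 * Real.pi * Complex.I * ((m : ℂ) * H x b).im)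
      = chi P FP b ^ N := by
    intro b hb
    have h1 := hx b
    change ((m : ℂ) * H x b).im = φ (avg Γ b) at h1
    obtain ⟨h2, -, h3⟩ := chi_sum' h0 hpotP hb (hker b) (Finset.univ : Finset (Lin Γ))
    rw [h1, avg_apply, hφ _ h2, h3, Finset.card_univ, hN, Nat.card_eq_fintype_card]
  -- the comparison bundle
  let S := shift L' x hxinv
  have hSpot : IsPot S (fun v w => (m : ℂ) * H v w)
      (fun v => F' (v + x) + Real.pi * ((m : ℂ) * H v x)) := shift_pot hH' hpot'
  let Q := tensor (P.pow N) (tensor L' (dual S))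
  set FQ : V → ℂ := fun v => (N : ℂ) * FP v + (F' v - (F' (v + x) + Real.pi * ((m : ℂ) * H v x)))
    with hFQdef
  have hQe : ∀ γ w, Q.e γ w = P.e γ w ^ N * (L'.e γ w * (S.e γ w)⁻¹) := fun _ _ => rfl
  have hFQ : IsPot Q (fun _ _ => 0) FQ := by
    refine ⟨(hFP.const_mul _).add (hF'.sub hSpot.1), fun γ v => ?_⟩
    have e1 := hFPe γ v
    have e2 := hF'e γ v
    have e3 := hSpot.2 γ v
    rw [hQe, norm_mul, norm_mul, norm_inv, norm_pow, mul_pow, mul_pow, inv_pow, ← pow_mul,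
      mul_comm N 2, pow_mul, e1, e2, e3, ← Real.exp_nat_mul, ← Real.exp_neg, ← Real.exp_add,
      ← Real.exp_add]
    congr 1
    have hNr : ∀ z : ℂ, ((N : ℂ) * z).re = (N : ℝ) * z.re := natCast_mul_re N
    simp only [hFQdef, Complex.add_re, Complex.sub_re, hNr, Complex.zero_re, mul_zero]
    ring
  have htwQ : ∀ γ w, tw Q FQ γ w = tw P FP γ w ^ N * (tw L' F' γ w
      * (tw S (fun v => F' (v + x) + Real.pi * ((m : ℂ) * H v x)) γ w)⁻¹) := by
    intro γ w
    rw [tw, tw, tw, tw, hQe]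
    have hx1 : FQ w - FQ ((γ : V ≃ᵃ[ℂ] V) w) = (N : ℂ) * (FP w - FP ((γ : V ≃ᵃ[ℂ] V) w))
        + ((F' w - F' ((γ : V ≃ᵃ[ℂ] V) w))
          + -((F' (w + x) + Real.pi * ((m : ℂ) * H w x))
            - (F' ((γ : V ≃ᵃ[ℂ] V) w + x) + Real.pi * ((m : ℂ) * H ((γ : V ≃ᵃ[ℂ] V) w) x)))) := by
      simp only [hFQdef]
      ring
    rw [hx1, Complex.exp_add, Complex.exp_add, Complex.exp_nat_mul, Complex.exp_neg]
    simp only [mul_pow, mul_inv]
    ring
  have hQchi : ∀ b ∈ latt Γ, chi Q FQ b = 1 := by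
    intro b hb
    rw [chi_eq hb, htwQ, shift_tw hH' hpot' b hb 0, hchi b hb, ← chi_eq hb]
    have h1 : tw L' F' (tr b hb) 0 ≠ 0 := tw_ne_zero _ _
    have h2 : chi P FP b ≠ 0 := by
      rw [chi_eq hb]
      exact tw_ne_zero _ _
    field_simp
  have SQ : Sit Γ Q (fun _ _ => 0) FQ (0 : V →ₗ[ℂ] (Fin 0 → ℂ)) h0 1 := by
    refine ⟨hΓ, hFQ, fun v => by simp, fun w => ⟨0, Subsingleton.elim _ _⟩, fun v => ?_,
      le_refl _, fun b hb _ => by rw [pow_one]; exact hQchi b hb⟩
    exact ⟨fun _ _ => rfl, fun _ => rfl⟩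
  have htriv : ∀ (γ : Γ) (w : V), Complex.exp ((N : ℂ) * FQ ((γ : V ≃ᵃ[ℂ] V) w))
      = Q.e γ w ^ N * Complex.exp ((N : ℂ) * FQ w) := by
    intro γ w
    have h1 := SQ.tw_pow γ w (fun w => rfl)
    rw [Pool.Agent.TH735.AQ.ex, mul_one, ← hN, tw, mul_pow, ← Complex.exp_nat_mul, mul_sub,
      Complex.exp_sub, ← mul_div_assoc, div_eq_one_iff_eq (Complex.exp_ne_zero _)] at h1
    exact h1.symm
  have hexp : 4 * N ^ 5 = m * N * N := by rw [hm]; ring
  rw [hexp]
  intro v
  obtain ⟨s, ⟨hsh, hseq⟩, hsv⟩ := hs v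
  obtain ⟨t, ⟨hth, hteq⟩, htv⟩ := shift_bpf (hx := hxinv) hs v
  have hFQh : Differentiable ℂ FQ := hFQ.1
  refine ⟨fun w => Complex.exp ((N : ℂ) * FQ w) * (s w ^ (N - 1) * t w) ^ N,
    ⟨(hFQh.const_mul _).cexp.mul (((hsh.pow _).mul hth).pow _), fun γ w => ?_⟩,
    mul_ne_zero (Complex.exp_ne_zero _) (pow_ne_zero _ (mul_ne_zero (pow_ne_zero _ hsv) htv))⟩
  change Complex.exp ((N : ℂ) * FQ ((γ : V ≃ᵃ[ℂ] V) w))
    * (s ((γ : V ≃ᵃ[ℂ] V) w) ^ (N - 1) * t ((γ : V ≃ᵃ[ℂ] V) w)) ^ N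
    = L.e γ w ^ (m * N * N) * (Complex.exp ((N : ℂ) * FQ w) * (s w ^ (N - 1) * t w) ^ N)
  have ht1 : t ((γ : V ≃ᵃ[ℂ] V) w) = S.e γ w * t w := hteq γ w
  have hPe : P.e γ w = L.e γ w ^ m * (L'.e γ w)⁻¹ := rfl
  have h3 : L'.e γ w ≠ 0 := L'.ne_zero γ w
  have h4 : S.e γ w ≠ 0 := S.ne_zero γ w
  have hkey : Q.e γ w * (L'.e γ w ^ (N - 1) * S.e γ w) = L.e γ w ^ (m * N) := by
    rw [hQe, hPe]
    exact aux_pow _ _ _ m N hNpos h3 h4
  rw [htriv, hseq, ht1, pow_mul, ← hkey]
  simp only [mul_pow]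
  ring

end Pool.Agent.R800.UB
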