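import Pool.Agent.TH735.AQ.Mero

/-!
# The character of a log pluricanonical line bundle on the kernel of its Chern form

`root_of_mero` is the main step of `Pool.Agent.TH735.AQ.semiample_of_mero`, stated with the exponent.
-/

set_option autoImplicit false

namespace Pool.Agent.R800.UB

open Pool.Agent.W594.SYZ2 Pool.Agent.W594.SYZ2.TQ Pool.Agent.TH735.AQ

variable {V : Type*} [NormedAddCommGroup V] [NormedSpace ℂ V] [FiniteDimensional ℂ V]
  {Γ : Subgroup (V ≃ᵃ[ℂ] V)} {L : LineBundle Γ} {H : V → V → ℂ} {F : V → ℂ}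

theorem root_of_mero (hΓ : IsTorusQuotient Γ) (hH : IsHermitian H) (hpot : IsPot L H F)
    (hn : IsNefForm H)
    {θ s : V → ℂ} (hθ : Differentiable ℂ θ) (hs : Differentiable ℂ s)
    (hne : ∃ v, θ v ≠ 0 ∧ ¬ OnMirror Γ v) (hzero : ∀ v, s v = 0 → OnMirror Γ v)
    (heq : ∀ (b : V) (hb : b ∈ latt Γ) (v : V),
      θ (b + v) * s v = L.e (tr b hb) v * θ v * s (b + v)) :
    ∀ b ∈ latt Γ, b ∈ ker hH → chi L F b ^ Nat.card (Lin Γ) = 1 := by
  classical
  have hF := hpot.1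
  obtain ⟨k, P, -, -, n, Δ, π, hker, hfib, -⟩ := numerical hΓ ⟨hH, F, hpot.1, hpot.2⟩ hn
  obtain ⟨v₀, hv₀, hmir⟩ := hne
  have hv₀' : s v₀ ≠ 0 := fun h => hmir (hzero v₀ h)
  have : FiniteDimensional ℝ V := FiniteDimensional.complexToReal V
  have := finite_Lin hΓ
  have : Fintype (Lin Γ) := Fintype.ofFinite _
  -- the lattice vectors in `K` span `K`
  let T : AddSubgroup (Fin n → ℂ) := (latt Γ).map π.toAddMonoidHom
  have hT : (T : Set (Fin n → ℂ)) ⊆ (latt Δ : Set (Fin n → ℂ)) := by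
    rintro _ ⟨b, hb, rfl⟩
    obtain ⟨δ, hδ, h⟩ := hfib.maps _ (mem_latt.1 hb)
    change AffineEquiv.constVAdd ℂ (Fin n → ℂ) (π b) ∈ Δ
    have h1 : AffineEquiv.constVAdd ℂ (Fin n → ℂ) (π b) = δ := by
      apply AffineEquiv.ext
      intro w
      obtain ⟨v, rfl⟩ := hfib.surj w
      rw [h v]
      change π b + π v = π (b + v)
      rw [map_add]
    rw [h1]
    exact hδ
  have hTd : DiscreteTopology T := by
    have h1 : DiscreteTopology (latt Δ : Set (Fin n → ℂ)) := hfib.base.discrete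
    exact DiscreteTopology.of_subset h1 hT
  have hsp := span_ker (V := V) (W := Fin n → ℂ) (latt Γ) hΓ.discrete hΓ.span_top T hTd
    (π.restrictScalars ℝ) hfib.surj (fun w => Iff.rfl)
  let K : Submodule ℂ V := KN Γ (ker hH)
  let Ns : Finset (Lin Γ) := Finset.univ.filter (· ∈ NK Γ (ker hH))
  have hNs : 1 ≤ Ns.card := Finset.card_pos.2 ⟨1, by
    rw [Finset.mem_filter]
    exact ⟨Finset.mem_univ _, (NK Γ (ker hH)).one_mem⟩⟩
  let A : V →ₗ[ℝ] V := ∑ g ∈ Ns, ((g.1 : V →ₗ[ℂ] V).restrictScalars ℝ)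
  have hA : ∀ v, A v = ∑ g ∈ Ns, g.1 v := by
    intro v
    simp only [A, LinearMap.sum_apply]
    rfl
  have hAK : ∀ b ∈ latt Γ, b ∈ ker hH → A b ∈ latt Γ ∧ A b ∈ K := by
    intro b hb hbK
    rw [hA]
    obtain ⟨h1, h2, -⟩ := chi_sum' hH hpot hb hbK Ns
    exact ⟨h1, h2, fun g hg => sum_fixed (ker hH) b g hg⟩
  have hspanV : ∀ x ∈ K, x ∈ Submodule.span ℝ {b | b ∈ latt Γ ∧ b ∈ K} := by
    intro x hx
    have h1 : x ∈ Submodule.span ℝ {b | b ∈ latt Γ ∧ π b = 0} := by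
      have h2 : x ∈ LinearMap.ker (π.restrictScalars ℝ) := (hker x).2 hx.1
      rw [← hsp] at h2
      exact h2
    have h2 : A x ∈ Submodule.span ℝ {b | b ∈ latt Γ ∧ b ∈ K} := by
      have h3 : A x ∈ (Submodule.span ℝ {b | b ∈ latt Γ ∧ π b = 0}).map A :=
        Submodule.mem_map_of_mem h1
      rw [Submodule.map_span] at h3
      refine Submodule.span_mono ?_ h3
      rintro _ ⟨b, ⟨hb, hb0⟩, rfl⟩
      exact hAK b hb ((hker b).1 hb0)
    have h3 : A x = (Ns.card : ℝ) • x := by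
      rw [hA, Finset.sum_congr rfl fun g hg => hx.2 g (Finset.mem_filter.1 hg).2,
        Finset.sum_const, ← Nat.cast_smul_eq_nsmul ℝ]
    have h4 : x = ((Ns.card : ℝ)⁻¹) • A x := by
      rw [h3, smul_smul, inv_mul_cancel₀ (by positivity), one_smul]
    rw [h4]
    exact Submodule.smul_mem _ _ h2
  let SK : AddSubgroup K := (latt Γ).comap K.subtype.toAddMonoidHom
  have hmap : (Submodule.span ℝ (SK : Set K)).map (K.subtype.restrictScalars ℝ)
      = Submodule.span ℝ {b | b ∈ latt Γ ∧ b ∈ K} := by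
    rw [Submodule.map_span]
    congr 1
    ext x
    constructor
    · rintro ⟨y, hy, rfl⟩
      exact ⟨hy, y.2⟩
    · rintro ⟨hx, hx0⟩
      exact ⟨⟨x, hx0⟩, hx, rfl⟩
  have hspan : Submodule.span ℝ (SK : Set K) = ⊤ := by
    rw [eq_top_iff]
    rintro ⟨x, hx⟩ -
    have h1 := hspanV x hx
    rw [← hmap] at h1
    obtain ⟨y, hy, hyx⟩ := h1
    have h2 : y = ⟨x, hx⟩ := Subtype.ext hyx
    rwa [← h2]
  have : ProperSpace K := FiniteDimensional.proper ℂ K
  have hsne : ∀ x : K, s (v₀ + x) ≠ 0 := fun x h =>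
    not_onMirror hH hpot hmir x.2 (hzero _ h)
  let u : K → ℂ := fun x => θ (v₀ + x) / s (v₀ + x) * Complex.exp (-F (v₀ + x))
  have hu : Differentiable ℂ u := by
    have h2 : Differentiable ℂ fun x : K => v₀ + (x : V) := K.subtypeL.differentiable.const_add v₀
    have h3 : Differentiable ℂ fun x : K => θ (v₀ + x) := hθ.comp h2
    have h4 : Differentiable ℂ fun x : K => (s (v₀ + x))⁻¹ :=
      Differentiable.inv (h := fun x : K => s (v₀ + x)) (hs.comp h2) hsne
    have h5 : Differentiable ℂ fun x : K => Complex.exp (-F (v₀ + x)) :=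
      (Differentiable.neg (f := fun x : K => F (v₀ + x)) (hF.comp h2)).cexp
    have h6 : u = fun x : K => θ (v₀ + x) * (s (v₀ + x))⁻¹ * Complex.exp (-F (v₀ + x)) := by
      funext x
      simp only [u, div_eq_mul_inv]
    rw [h6]
    exact (h3.mul h4).mul h5
  have hueq : ∀ (b : K) (_ : (b : V) ∈ latt Γ) (x : K), u (b + x) = chi L F b * u x := by
    intro b hb x
    have h1 := heq (b : V) hb (v₀ + x)
    have h2 := tw_tr_ker hH hpot hb b.2.1 (v₀ + (x : V))
    have hs1 : s ((b : V) + (v₀ + x)) ≠ 0 := by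
      have := hsne (b + x)
      rwa [Submodule.coe_add, add_left_comm] at this
    have hs2 := hsne x
    have h3 : θ ((b : V) + (v₀ + x)) / s ((b : V) + (v₀ + x))
        = L.e (tr (b : V) hb) (v₀ + x) * (θ (v₀ + x) / s (v₀ + x)) := by
      rw [div_eq_iff hs1, ← mul_div_assoc, div_mul_eq_mul_div, eq_div_iff hs2]
      exact h1
    simp only [u]
    rw [← h2, tw, tr_apply, Submodule.coe_add, add_left_comm v₀ (b : V) (x : V), h3]
    have h4 : Complex.exp (-F ((b : V) + (v₀ + x)))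
        = Complex.exp (F (v₀ + x) - F ((b : V) + (v₀ + x))) * Complex.exp (-F (v₀ + x)) := by
      rw [← Complex.exp_add]
      congr 1
      ring
    rw [h4]
    ring
  obtain ⟨C, hC⟩ := cobounded SK hspan
  have hbd : Bornology.IsBounded (Set.range u) := by
    have hK : IsCompact (Metric.closedBall (0 : K) C) := isCompact_closedBall _ _
    obtain ⟨R, hR⟩ := (isBounded_iff_forall_norm_le.1 (hK.image hu.continuous).isBounded)
    rw [isBounded_iff_forall_norm_le]
    refine ⟨R, ?_⟩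
    rintro _ ⟨v, rfl⟩
    obtain ⟨b, hb, hbC⟩ := hC v
    have hb' : (b : V) ∈ latt Γ := hb
    have h1 : ‖u (b + v)‖ = ‖u v‖ := by
      rw [hueq b hb' v, norm_mul, chi_norm hH hpot hb' b.2.1, one_mul]
    rw [← h1]
    exact hR _ ⟨b + v, by rwa [mem_closedBall_zero_iff], rfl⟩
  have hone : ∀ b ∈ latt Γ, b ∈ K → chi L F b = 1 := by
    intro b hb hbK
    have h1 := hueq ⟨b, hbK⟩ hb 0
    have h2 : u (⟨b, hbK⟩ + 0) = u 0 := hu.apply_eq_apply_of_bounded hbd _ _
    rw [h2] at h1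
    have h3 : u 0 ≠ 0 := by
      simp only [u, Submodule.coe_zero, add_zero]
      exact mul_ne_zero (div_ne_zero hv₀ hv₀') (Complex.exp_ne_zero _)
    exact (mul_right_cancel₀ h3 ((one_mul _).trans h1)).symm
  have hroot : ∀ b ∈ latt Γ, b ∈ ker hH → chi L F b ^ Ns.card = 1 := by
    intro b hb hbK
    obtain ⟨h1, h2⟩ := hAK b hb hbK
    have h3 := hone _ h1 h2
    rw [hA] at h3
    rw [← (chi_sum' hH hpot hb hbK Ns).2.2]
    exact h3
  intro b hb hbK
  have h1 : Ns.card ∣ Nat.card (Lin Γ) := by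
    have h2 : Ns.card = Nat.card (NK Γ (ker hH)) := by
      rw [Nat.card_eq_fintype_card, ← Fintype.card_coe]
      exact Fintype.card_congr (Equiv.subtypeEquivRight fun g => by
        rw [Finset.mem_filter]
        exact ⟨fun h => h.2, fun h => ⟨Finset.mem_univ _, h⟩⟩)
    rw [h2]
    exact Subgroup.card_subgroup_dvd_card _
  obtain ⟨t, ht⟩ := h1
  rw [ht, pow_mul, hroot b hb hbK, one_pow]

/-- The same for the line bundle of a multiple of a log canonical divisor. -/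
theorem root_log (hΓ : IsTorusQuotient Γ) (hH : IsHermitian H) (hpot : IsPot L H F) {ρ β : V → ℂ}
    {m : ℕ} (hρ : IsRamification Γ ρ) (hβ : Differentiable ℂ β)
    (hβ0 : ∃ v, β v ≠ 0) (hL : IsLogPluricanonical L m ρ β) (hn : IsNefForm H) :
    ∀ b ∈ latt Γ, b ∈ ker hH → chi L F b ^ Nat.card (Lin Γ) = 1 := by
  obtain ⟨v, hv, hv'⟩ := exists_common hβ hρ.holo hβ0 (ram_ne_zero hρ)
  refine root_of_mero hΓ hH hpot hn hβ (hρ.holo.pow m) ⟨v, hv, fun h => hv' ((hρ.zero_iff v).2 h)⟩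
    (fun w hw => (hρ.zero_iff w).1 (eq_zero_of_pow_eq_zero hw)) ?_
  intro b hb w
  have h1 := hL (tr b hb) w
  have h2 : LinearMap.det (((tr b hb : Γ) : V ≃ᵃ[ℂ] V).linear : V →ₗ[ℂ] V) = 1 := by
    have h3 : (((tr b hb : Γ) : V ≃ᵃ[ℂ] V).linear : V →ₗ[ℂ] V) = LinearMap.id := by
      ext w
      exact tr_linear b hb w
    rw [h3, LinearMap.det_id]
  rw [h2, one_pow, mul_one, tr_apply] at h1
  exact h1

end Pool.Agent.R800.UB
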