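import Pool.Agent.R800.UB.Amp
import Pool.Agent.R800.UB.Root
import Pool.Agent.R800.UA.Fibr

/-!
# Effective abundance for pairs on torus quotients
-/

set_option autoImplicit false

namespace Pool.Agent.R800.UB

open Pool.Agent.W594.SYZ2 Pool.Agent.W594.SYZ2.TQ Pool.Agent.TH735.AQ Pool.Agent.R893.TQ
open Pool.Agent.R800.UA

variable {V : Type*} [NormedAddCommGroup V] [NormedSpace ℂ V] [FiniteDimensional ℂ V]
  {Γ : Subgroup (V ≃ᵃ[ℂ] V)} {L : LineBundle Γ} {H : V → V → ℂ} {F : V → ℂ}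

/-- The semiample fibration of a nef line bundle whose character on the kernel of its Chern form is
killed by the order of the group, with a uniform exponent. -/
theorem fibration_root (hΓ : IsTorusQuotient Γ) {n : ℕ} (hd : Module.finrank ℂ V = n)
    (hH : IsHermitian H) (hpot : IsPot L H F) (hn : IsNefForm H)
    (hroot : ∀ b ∈ latt Γ, b ∈ ker hH → chi L F b ^ Nat.card (Lin Γ) = 1) :
    ∃ (k : ℕ) (Δ : Subgroup ((Fin k → ℂ) ≃ᵃ[ℂ] (Fin k → ℂ))) (π : V →ₗ[ℂ] (Fin k → ℂ)),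
      (∀ v, π v = 0 ↔ ∀ w, H v w = 0) ∧ IsFibration Γ Δ π ∧ PullsBack L Δ π (4 * gl3 n ^ 7) := by
  have hF := hpot.1
  have := finite_Lin hΓ
  let k := Module.finrank ℂ (V ⧸ ker hH)
  let e : (V ⧸ ker hH) ≃ₗ[ℂ] (Fin k → ℂ) := (Module.finBasis ℂ (V ⧸ ker hH)).equivFun
  let π : V →ₗ[ℂ] (Fin k → ℂ) := (e : (V ⧸ ker hH) →ₗ[ℂ] (Fin k → ℂ)) ∘ₗ (ker hH).mkQ
  have S : Pool.Agent.TH735.AQ.Sit Γ L H F π hH (Nat.card (Lin Γ)) := by
    refine ⟨hΓ, hpot, hn, ?_, ?_, Nat.card_pos, hroot⟩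
    · exact e.surjective.comp (ker hH).mkQ_surjective
    · intro v
      change e ((ker hH).mkQ v) = 0 ↔ v ∈ ker hH
      rw [LinearEquiv.map_eq_zero_iff, Submodule.mkQ_apply, Submodule.Quotient.mk_eq_zero]
  have hf := S.isFibration
  refine ⟨k, Del Γ π, π, S.ker_iff, hf, ?_⟩
  set N := Nat.card (Lin Γ) with hN
  set N' := Nat.card (Lin (Del Γ π)) with hN'
  have hd1 : N' ∣ N := card_base hf
  have hd2 : N ∣ gl3 n := card_dvd hΓ hd
  have hex : Pool.Agent.TH735.AQ.ex Γ N = N ^ 2 := by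
    rw [Pool.Agent.TH735.AQ.ex, ← hN, sq]
  obtain ⟨t, ht⟩ : N ^ 2 * (4 * N' ^ 5) ∣ 4 * gl3 n ^ 7 := by
    have h1 : 4 * gl3 n ^ 7 = gl3 n ^ 2 * (4 * gl3 n ^ 5) := by ring
    rw [h1]
    exact Nat.mul_dvd_mul (pow_dvd_pow_of_dvd hd2 2)
      (Nat.mul_dvd_mul_left 4 (pow_dvd_pow_of_dvd (hd1.trans hd2) 5))
  let A := Pool.Agent.TH735.AQ.bun S
  have hAc := Pool.Agent.TH735.AQ.HA_chern S
  have hAp := Pool.Agent.TH735.AQ.HA_pos S
  set HA := Pool.Agent.TH735.AQ.HA Γ H π N with hHA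
  have hfree : BaseFree (A.pow (4 * N' ^ 5 * t)) :=
    baseFree_of_dvd ⟨t, rfl⟩ (ample_eff S.base hAc hAp)
  set T := 4 * N' ^ 5 * t with hT
  have hTpos : 0 < T := by
    rcases Nat.eq_zero_or_pos T with h | h
    · exfalso
      have h1 : 0 < 4 * gl3 n ^ 7 := by have := gl3_pos n; positivity
      rw [ht, mul_assoc, ← hT, h, mul_zero] at h1
      exact lt_irrefl _ h1
    · exact h
  refine ⟨A.pow T, fun v w => (T : ℂ) * HA v w, chern_pow hAc T, ?_, hfree,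
    fun v => Complex.exp (-(N ^ 2 * F v)) ^ T, ((hF.const_mul ((N : ℂ) ^ 2)).neg.cexp).pow T,
    fun v => pow_ne_zero _ (Complex.exp_ne_zero _), ?_⟩
  · intro w hw
    rw [natCast_mul_re]
    have : (0 : ℝ) < T := by exact_mod_cast hTpos
    exact mul_pos this (hAp w hw)
  · intro γ δ h v
    have h1 : A.e δ (π v) = tw L F γ v ^ N ^ 2 := by
      have := Pool.Agent.TH735.AQ.bun_e S γ δ h v
      rw [hex] at this
      exact this
    change Complex.exp (-(N ^ 2 * F ((γ : V ≃ᵃ[ℂ] V) v))) ^ T * L.e γ v ^ (4 * gl3 n ^ 7)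
      = A.e δ (π v) ^ T * Complex.exp (-(N ^ 2 * F v)) ^ T
    have h2 : Complex.exp (-(N ^ 2 * F ((γ : V ≃ᵃ[ℂ] V) v)))
        = Complex.exp (F v - F ((γ : V ≃ᵃ[ℂ] V) v)) ^ (N ^ 2)
          * Complex.exp (-(N ^ 2 * F v)) := by
      rw [← Complex.exp_nat_mul, ← Complex.exp_add]
      congr 1
      push_cast
      ring
    rw [ht, mul_assoc (N ^ 2), ← hT, pow_mul (L.e γ v), h1, tw, h2]
    simp only [mul_pow]
    ring

/-- The pullback of a line bundle generated by global sections is generated by global sections. -/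
theorem bpf_of_pullsBack {k m : ℕ} {Δ : Subgroup ((Fin k → ℂ) ≃ᵃ[ℂ] (Fin k → ℂ))}
    {π : V →ₗ[ℂ] (Fin k → ℂ)} (hf : IsFibration Γ Δ π) (h : PullsBack L Δ π m) :
    BaseFree (L.pow m) := by
  obtain ⟨A, HA, -, -, hA, g, hg, hg0, heq⟩ := h
  intro v
  obtain ⟨s, hs, hsv⟩ := hA (π v)
  have hπ : Differentiable ℂ (fun v => π v) := by
    have : (fun v => π v) = LinearMap.toContinuousLinearMap π := rfl
    rw [this]
    exact ContinuousLinearMap.differentiable _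
  refine ⟨fun w => s (π w) * (g w)⁻¹, ⟨(hs.holo.comp hπ).mul (hg.inv hg0), fun γ w => ?_⟩,
    mul_ne_zero hsv (inv_ne_zero (hg0 v))⟩
  obtain ⟨δ, hδ, hδγ⟩ := hf.maps γ γ.2
  have h1 := heq γ ⟨δ, hδ⟩ hδγ w
  have h2 := hs.eq ⟨δ, hδ⟩ (π w)
  change s (δ (π w)) = A.e ⟨δ, hδ⟩ (π w) * s (π w) at h2
  change s (π ((γ : V ≃ᵃ[ℂ] V) w)) * (g ((γ : V ≃ᵃ[ℂ] V) w))⁻¹ = (L.pow m).e γ w * (s (π w) * (g w)⁻¹)
  rw [← hδγ, h2]
  have h3 := hg0 w
  have h4 := hg0 ((γ : V ≃ᵃ[ℂ] V) w)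
  field_simp
  linear_combination (-s (π w)) * h1

/-- Effective abundance for pairs. -/
theorem abundance_log (hΓ : IsTorusQuotient Γ) {n : ℕ} (hd : Module.finrank ℂ V = n)
    (hc : IsChernForm L H) {ρ β : V → ℂ}
    {m : ℕ} (hρ : IsRamification Γ ρ) (hβ : Differentiable ℂ β)
    (hβ0 : ∃ v, β v ≠ 0) (hL : IsLogPluricanonical L m ρ β) (hn : IsNefForm H) :
    ∃ (k : ℕ) (Δ : Subgroup ((Fin k → ℂ) ≃ᵃ[ℂ] (Fin k → ℂ))) (π : V →ₗ[ℂ] (Fin k → ℂ)),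
      (∀ v, π v = 0 ↔ ∀ w, H v w = 0) ∧ IsFibration Γ Δ π ∧ PullsBack L Δ π (4 * gl3 n ^ 7) := by
  obtain ⟨hH, F, hF, hFe⟩ := hc
  exact fibration_root hΓ hd hH ⟨hF, hFe⟩ hn (root_log hΓ hH ⟨hF, hFe⟩ hρ hβ hβ0 hL hn)

end Pool.Agent.R800.UB
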