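import Pool.Agent.R800.UA.WeilDefs
import Pool.Agent.TH735.AQ.MirDefs
import Pool.Agent.W594.SYZ.TQDefs

/-!
# Log pluricanonical divisors on torus quotients as Weil divisors
-/

set_option autoImplicit false

namespace Pool.Agent.R800.UB

open Pool.Agent.W594.SYZ2 Pool.Agent.R800.UA

variable {V W : Type*} [NormedAddCommGroup V] [NormedSpace ℂ V] [NormedAddCommGroup W]
  [NormedSpace ℂ W] {Γ : Subgroup (V ≃ᵃ[ℂ] V)}

/-- The integral Weil divisor `D` is `m (K_X + B)`, where the entire function `ρ` defines the ramification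
divisor of `V → X = V / Γ` and the entire function `β` defines the pullback of the effective divisor
`m B` to `V`. Here the local section `g` of `O_X(D)` is the `m`-canonical form `g ρ ^ m / β (dv) ^ m`,
which is invariant under `Γ`. -/
def IsLogPluri (D : WeilClass Γ) (m : ℕ) (ρ β : V → ℂ) : Prop :=
  ∀ (γ : Γ) (v : V), β ((γ : V ≃ᵃ[ℂ] V) v) * ρ v ^ m =
    D.e γ v * LinearMap.det ((γ : V ≃ᵃ[ℂ] V).linear : V →ₗ[ℂ] V) ^ m * β v *
      ρ ((γ : V ≃ᵃ[ℂ] V) v) ^ m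

/-- `s` is a global section of `O_X(k D)`. -/
def IsSec (D : WeilClass Γ) (k : ℕ) (s : V → ℂ) : Prop :=
  Differentiable ℂ s ∧ ∀ (γ : Γ) (v : V), s ((γ : V ≃ᵃ[ℂ] V) v) = D.e γ v ^ k * s v

/-- `k D` is a Cartier divisor (all stabilisers act trivially on the fibres) and `|k D|` has no base
points. -/
def Free (D : WeilClass Γ) (k : ℕ) : Prop :=
  (∀ (γ : Γ) (v : V), (γ : V ≃ᵃ[ℂ] V) v = v → D.e γ v ^ k = 1) ∧ ∀ v, ∃ s, IsSec D k s ∧ s v ≠ 0

/-- The divisor `M D` on `X = V / Γ` is the pullback of a divisor `A` on `Z = W / Δ` under the map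
`X → Z` induced by `π`; `A` is ample (its Chern form is positive definite), Cartier and base point free.
The isomorphism of `O_X(M D)` with the pullback of `O_Z(A)` is the multiplication with the nowhere
vanishing function `h`. -/
def IsPullBack (D : WeilClass Γ) (M : ℕ) (Δ : Subgroup (W ≃ᵃ[ℂ] W)) (π : V →ₗ[ℂ] W) : Prop :=
  ∃ (A : WeilClass Δ) (HA : W → W → ℂ), A.HasChernForm HA ∧ IsPositiveForm HA ∧ Free A 1 ∧
    ∃ h : V → ℂ, Differentiable ℂ h ∧ (∀ v, h v ≠ 0) ∧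
      ∀ (γ : Γ) (δ : Δ), (∀ v, (δ : W ≃ᵃ[ℂ] W) (π v) = π ((γ : V ≃ᵃ[ℂ] V) v)) →
        ∀ v, h ((γ : V ≃ᵃ[ℂ] V) v) * D.e γ v ^ M = A.e δ (π v) * h v

end Pool.Agent.R800.UB
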