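import Pool.Agent.R800.UB.Fib
import Pool.Agent.R800.UB.LogDefs
import Pool.Agent.R800.UA.Weil

/-!
# Uniform abundance for pairs on torus quotients
-/

set_option autoImplicit false

namespace Pool.Agent.R800.UB

open Pool.Agent.W594.SYZ2 Pool.Agent.W594.SYZ2.TQ Pool.Agent.TH735.AQ Pool.Agent.R893.TQ
open Pool.Agent.R800.UA

variable {V : Type*} [NormedAddCommGroup V] [NormedSpace ℂ V] [FiniteDimensional ℂ V]
  {Γ : Subgroup (V ≃ᵃ[ℂ] V)} {D : WeilClass Γ} {H : V → V → ℂ}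

theorem nef_mul {k : ℕ} (hk : 0 < k) : IsNefForm (fun v w => (k : ℂ) * H v w) ↔ IsNefForm H := by
  have hkr : (0 : ℝ) < k := by exact_mod_cast hk
  constructor
  · intro h v
    have h1 := h v
    rw [natCast_mul_re] at h1
    exact nonneg_of_mul_nonneg_right h1 hkr
  · intro h v
    rw [natCast_mul_re]
    exact mul_nonneg hkr.le (h v)

theorem fib_log (hΓ : IsTorusQuotient Γ) {n : ℕ} (hd : Module.finrank ℂ V = n)
    (hc : D.HasChernForm H) {ρ β : V → ℂ}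
    {m : ℕ} (hρ : IsRamification Γ ρ) (hβ : Differentiable ℂ β)
    (hβ0 : ∃ v, β v ≠ 0) (hL : IsLogPluri D m ρ β) (hn : IsNefForm H) :
    ∃ (k : ℕ) (Δ : Subgroup ((Fin k → ℂ) ≃ᵃ[ℂ] (Fin k → ℂ))) (π : V →ₗ[ℂ] (Fin k → ℂ)),
      (∀ v, π v = 0 ↔ ∀ w, H v w = 0) ∧ IsFibration Γ Δ π ∧ IsPullBack D (4 * gl3 n ^ 8) Δ π := by
  have := finite_Lin hΓ
  have hNpos : 0 < Nat.card (Lin Γ) := Nat.card_pos
  set N := Nat.card (Lin Γ) with hN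
  have hcar := D.cartier hΓ
  have hLP : IsLogPluricanonical (D.toLine N hcar) (m * N) ρ (fun v => β v ^ N) := by
    intro γ v
    have h1 := hL γ v
    change β ((γ : V ≃ᵃ[ℂ] V) v) ^ N * ρ v ^ (m * N) = D.e γ v ^ N
      * LinearMap.det ((γ : V ≃ᵃ[ℂ] V).linear : V →ₗ[ℂ] V) ^ (m * N) * β v ^ N
      * ρ ((γ : V ≃ᵃ[ℂ] V) v) ^ (m * N)
    rw [pow_mul, pow_mul, pow_mul, ← mul_pow, ← mul_pow, ← mul_pow, ← mul_pow, h1]
  obtain ⟨v₀, hv₀⟩ := hβ0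
  obtain ⟨k, Δ, π, h1, h2, A, HA, hA1, hA2, hA3, h, hh, hne, heq⟩ := abundance_log hΓ hd
    (D.toLine_chern hc N hcar) hρ (hβ.pow N) ⟨v₀, pow_ne_zero _ hv₀⟩ hLP ((nef_mul hNpos).2 hn)
  obtain ⟨t, ht⟩ : N ∣ gl3 n := card_dvd hΓ hd
  have htpos : 0 < t := by
    rcases Nat.eq_zero_or_pos t with h | h
    · have h3 := gl3_pos n
      rw [ht, h, mul_zero] at h3
      exact absurd h3 (lt_irrefl _)
    · exact h
  let A' : WeilClass Δ := ⟨fun δ w => A.e δ w ^ t, fun δ => (A.holo δ).pow t,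
    fun δ w => pow_ne_zero _ (A.ne_zero δ w), fun δ δ' w => by rw [A.mul, mul_pow]⟩
  have hA' : A'.HasChernForm (fun v w => (t : ℂ) * HA v w) := chern_pow hA1 t
  refine ⟨k, Δ, π, fun v => ?_, h2, A', fun v w => (t : ℂ) * HA v w, hA', ?_,
    ⟨fun δ w hw => ?_, fun w => ?_⟩, fun v => h v ^ t, hh.pow t, fun v => pow_ne_zero _ (hne v), ?_⟩
  · rw [h1]
    have hNc : (N : ℂ) ≠ 0 := Nat.cast_ne_zero.2 hNpos.ne'
    exact ⟨fun h3 w => (mul_eq_zero.1 (h3 w)).resolve_left hNc, fun h3 w => by rw [h3 w, mul_zero]⟩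
  · intro w hw
    rw [natCast_mul_re]
    have : (0 : ℝ) < t := by exact_mod_cast htpos
    exact mul_pos this (hA2 w hw)
  · change (A.e δ w ^ t) ^ 1 = 1
    rw [A.stab δ w hw, one_pow, one_pow]
  · obtain ⟨s, hs, hsw⟩ := hA3 w
    refine ⟨fun w => s w ^ t, ⟨hs.holo.pow t, fun δ v => ?_⟩, pow_ne_zero _ hsw⟩
    change s ((δ : (Fin k → ℂ) ≃ᵃ[ℂ] (Fin k → ℂ)) v) ^ t = (A.e δ v ^ t) ^ 1 * s v ^ t
    rw [hs.eq, mul_pow, pow_one]
  · intro γ δ hγδ v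
    have h3 := heq γ δ hγδ v
    change h ((γ : V ≃ᵃ[ℂ] V) v) * (D.e γ v ^ N) ^ (4 * gl3 n ^ 7) = A.e δ (π v) * h v at h3
    change h ((γ : V ≃ᵃ[ℂ] V) v) ^ t * D.e γ v ^ (4 * gl3 n ^ 8) = A.e δ (π v) ^ t * h v ^ t
    have h4 : 4 * gl3 n ^ 8 = N * (4 * gl3 n ^ 7) * t := by
      have : 4 * gl3 n ^ 8 = gl3 n * (4 * gl3 n ^ 7) := by ring
      rw [this]
      conv_lhs => rw [ht]
      conv_rhs => rw [ht]
      ring
    rw [h4, pow_mul, pow_mul, ← mul_pow, ← mul_pow, h3]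

theorem bpf_of_pull {k M : ℕ} {Δ : Subgroup ((Fin k → ℂ) ≃ᵃ[ℂ] (Fin k → ℂ))}
    {π : V →ₗ[ℂ] (Fin k → ℂ)} (hf : IsFibration Γ Δ π) (h : IsPullBack D M Δ π) :
    Free D M := by
  obtain ⟨A, HA, -, -, hA, g, hg, hg0, heq⟩ := h
  have hπ : Differentiable ℂ (fun v => π v) := by
    have : (fun v => π v) = LinearMap.toContinuousLinearMap π := rfl
    rw [this]
    exact ContinuousLinearMap.differentiable _
  refine ⟨fun γ v hγ => ?_, fun v => ?_⟩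
  · obtain ⟨δ, hδ, hδγ⟩ := hf.maps γ γ.2
    have h1 := heq γ ⟨δ, hδ⟩ hδγ v
    have h2 : A.e ⟨δ, hδ⟩ (π v) = 1 := by
      have := hA.1 ⟨δ, hδ⟩ (π v) (by
        change δ (π v) = π v
        rw [hδγ, hγ])
      rwa [pow_one] at this
    rw [h2, one_mul, hγ] at h1
    exact mul_left_cancel₀ (hg0 v) (h1.trans (mul_one _).symm)
  · obtain ⟨s, hs, hsv⟩ := hA.2 (π v)
    refine ⟨fun w => s (π w) * (g w)⁻¹, ⟨(hs.1.comp hπ).mul (hg.inv hg0), fun γ w => ?_⟩,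
      mul_ne_zero hsv (inv_ne_zero (hg0 v))⟩
    obtain ⟨δ, hδ, hδγ⟩ := hf.maps γ γ.2
    have h1 := heq γ ⟨δ, hδ⟩ hδγ w
    have h2 := hs.2 ⟨δ, hδ⟩ (π w)
    rw [pow_one] at h2
    change s (δ (π w)) = A.e ⟨δ, hδ⟩ (π w) * s (π w) at h2
    change s (π ((γ : V ≃ᵃ[ℂ] V) w)) * (g ((γ : V ≃ᵃ[ℂ] V) w))⁻¹ = D.e γ w ^ M * (s (π w) * (g w)⁻¹)
    rw [← hδγ, h2]
    have h3 := hg0 w
    have h4 := hg0 ((γ : V ≃ᵃ[ℂ] V) w)
    field_simp
    linear_combination (-s (π w)) * h1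

/-- A Weil divisor with a multiple with a nonzero section is nef. -/
theorem nef_of_eff (hΓ : IsTorusQuotient Γ) (hc : D.HasChernForm H) {j : ℕ} (hj : 1 ≤ j)
    {s : V → ℂ} (hs : IsSec D j s) (h0 : ∃ v, s v ≠ 0) : IsNefForm H := by
  have := finite_Lin hΓ
  have hNpos : 0 < Nat.card (Lin Γ) := Nat.card_pos
  set N := Nat.card (Lin Γ) with hN
  have hcar := D.cartier hΓ
  obtain ⟨v, hv⟩ := h0
  have hs' : ((D.toLine N hcar).pow j).IsSection (fun w => s w ^ N) := by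
    refine ⟨hs.1.pow N, fun γ w => ?_⟩
    have h1 := hs.2 γ w
    change s ((γ : V ≃ᵃ[ℂ] V) w) ^ N = (D.e γ w ^ N) ^ j * s w ^ N
    rw [h1, mul_pow, ← pow_mul, ← pow_mul, mul_comm j N]
  have hps := Pool.Agent.TH128.SYZ.psef_of_section hs' (fun h0 => by
    have := congrFun h0 v
    exact pow_ne_zero N hv this)
  have h2 := Pool.Agent.TH128.SYZ.nef_of_psef hΓ (chern_pow (D.toLine_chern hc N hcar) j) hps
  exact (nef_mul hNpos).1 ((nef_mul (Nat.lt_of_lt_of_le Nat.zero_lt_one hj)).1 h2)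

end Pool.Agent.R800.UB
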